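import Pool.Agent.Lib.P325hx.Near
import Pool.Agent.Lib.P325h.Expander

/-!
# Linear programs on unique games with a spectral gap: the exponent is of order log s / log d

Sherali-Adams linear programs of degree `K n ^ (12 x)`, `x = log (1 / s) / log (1 / d)`, solve the
gap problem `(s, d)` for unique games with second eigenvalue at most `d`, for all
`0 < d ≤ 1 / 2`, `d < s < 1`.
-/

set_option autoImplicit false

open Finset Matrix Pool.Agent.Lib.P325F

namespace Pool.Agent.Lib.P325hx

open Pool.Agent.Lib.P325h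

theorem sum_sat_ge {s : ℝ} {U W Ω ι : Type} [Fintype U] [Fintype W] [Fintype Ω] [DecidableEq U]
    [DecidableEq W] [DecidableEq Ω] [Fintype ι]
    (I : P325x.Game U W Ω ι) (hm : 0 < Fintype.card ι) (E : ((U ⊕ W → Ω) → ℝ) →ₗ[ℝ] ℝ)
    (hval : s ≤ E (fun z => I.satFrac (fun u => z (Sum.inl u)) (fun v => z (Sum.inr v)))) :
    s * Fintype.card ι ≤ ∑ e, E (P325u.sat (Sum.inl (I.src e) : U ⊕ W)
      (Sum.inr (I.dst e)) (I.perm e)) := by
  classical
  have hm' : (0 : ℝ) < Fintype.card ι := by exact_mod_cast hm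
  have h1 : (fun z : U ⊕ W → Ω =>
      I.satFrac (fun u => z (Sum.inl u)) (fun v => z (Sum.inr v))) =
      (Fintype.card ι : ℝ)⁻¹ • ∑ e, P325u.sat (Sum.inl (I.src e) : U ⊕ W)
        (Sum.inr (I.dst e)) (I.perm e) := by
    funext z
    have h2 := P325v.satFrac_card I hm z
    rw [Pi.smul_apply, Finset.sum_apply, smul_eq_mul, ← div_eq_inv_mul, eq_div_iff hm'.ne', h2]
    unfold P325F.sat P325u.sat Good
    apply Finset.sum_congr rfl
    intro e _
    by_cases hc : I.perm e (z (Sum.inl (I.src e))) = z (Sum.inr (I.dst e))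
    · simp only [hc, if_true]
    · simp only [hc, if_false]
  rw [h1, map_smul, map_sum, smul_eq_mul, ← div_eq_inv_mul, le_div_iff₀ hm'] at hval
  exact hval

/-- `-log (1 - 8 v) ≤ 12 v` for `0 ≤ v ≤ 1 / 16`. -/
theorem neg_log_le {v : ℝ} (hv0 : 0 ≤ v) (hv : v ≤ 1 / 16) :
    -Real.log (1 - 8 * v) ≤ 12 * v := by
  have h0 : 0 < 1 - 8 * v := by linarith
  have h1 : Real.exp (-(12 * v)) ≤ 1 - 8 * v := by
    have h4 : Real.exp (12 * v) ≥ 1 / (1 - 8 * v) := by
      rw [ge_iff_le, div_le_iff₀ h0]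
      have h5 := Real.sum_le_exp_of_nonneg (x := 12 * v) (by positivity) 4
      simp only [Finset.sum_range_succ, Finset.sum_range_zero, Nat.factorial] at h5
      norm_num at h5
      have h6 : 1 ≤ (1 + 12 * v + (12 * v) ^ 2 / 2 + (12 * v) ^ 3 / 6) * (1 - 8 * v) := by
        nlinarith [mul_nonneg hv0 hv0, mul_nonneg (mul_nonneg hv0 hv0) hv0,
          mul_nonneg hv0 (sub_nonneg.2 hv), mul_nonneg (mul_nonneg hv0 hv0) (sub_nonneg.2 hv),
          mul_nonneg (mul_nonneg (mul_nonneg hv0 hv0) hv0) (sub_nonneg.2 hv)]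
      refine h6.trans (mul_le_mul_of_nonneg_right ?_ h0.le)
      linarith
    rw [Real.exp_neg]
    rw [inv_le_comm₀ (Real.exp_pos _) h0, ← one_div]
    exact h4
  have h2 := Real.log_le_log (Real.exp_pos _) h1
  rw [Real.log_exp] at h2
  linarith

/-- `log (2 / s) ≤ 12 log (1 / s)` for `0 < s ≤ 15 / 16`. -/
theorem log_two_div_le {s : ℝ} (hs0 : 0 < s) (hs : s ≤ 15 / 16) :
    Real.log (2 / s) ≤ 12 * Real.log (1 / s) := by
  have h1 : Real.log (2 / s) = Real.log 2 + Real.log (1 / s) := by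
    rw [← Real.log_mul (by norm_num) (by positivity)]
    congr 1
    ring
  have h2 : Real.log (16 / 15) ≤ Real.log (1 / s) := by
    apply Real.log_le_log (by norm_num)
    rw [le_div_iff₀ hs0]
    linarith
  have h3 : Real.log 2 ≤ 11 * Real.log (16 / 15) := by
    have h4 : 11 * Real.log (16 / 15) = Real.log ((16 / 15) ^ 11) := by
      rw [Real.log_pow]; norm_num
    rw [h4]
    apply Real.log_le_log (by norm_num)
    norm_num
  rw [h1]
  linarith

/-- Games with value at least `1 - 2 ε`, `ε ≤ 1 / 32`. -/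
theorem sa_near {d s : ℝ} (hd0 : 0 < d) (hd1 : d < 1) (hs0 : 15 / 16 ≤ s) (hs : s < 1)
    (U W Ω ι : Type) [Fintype U] [Fintype W] [Fintype Ω] [Fintype ι]
    (I : P325x.Game U W Ω ι) (hI : I.SecondEigenvalueLE d) (r : ℕ)
    (E : ((U ⊕ W → Ω) → ℝ) →ₗ[ℝ] ℝ) (hE : IsLocalExpectation r E)
    (hr : 26 / (1 - s) ^ 2 *
      ((Fintype.card U : ℝ) + Fintype.card W) ^ (12 * (Real.log (1 / s) / Real.log (1 / d))) ≤ r)
    (hval : s ≤ E (fun z => I.satFrac (fun u => z (Sum.inl u)) (fun v => z (Sum.inr v)))) :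
    1 / 2 ≤ I.value := by
  classical
  rcases Nat.eq_zero_or_pos (Fintype.card ι) with h0 | hm
  · exfalso
    have h1 : (fun z : U ⊕ W → Ω =>
        I.satFrac (fun u => z (Sum.inl u)) (fun v => z (Sum.inr v))) = 0 := by
      funext z
      unfold P325x.Game.satFrac
      rw [h0]
      simp
    rw [h1, map_zero] at hval
    linarith
  have hm' : (0 : ℝ) < Fintype.card ι := by exact_mod_cast hm
  have hι : Nonempty ι := Fintype.card_pos_iff.1 hm
  obtain ⟨i0⟩ := id hι
  set n : ℝ := (Fintype.card U : ℝ) + Fintype.card W with hn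
  have hcard : (Fintype.card (U ⊕ W) : ℝ) = n := by
    rw [Fintype.card_sum, hn]; push_cast; ring
  have hn1 : 1 ≤ n := by
    have : 1 ≤ Fintype.card U := Fintype.card_pos_iff.2 ⟨I.src i0⟩
    have h2 : (1 : ℝ) ≤ Fintype.card U := by exact_mod_cast this
    have h3 : (0 : ℝ) ≤ Fintype.card W := Nat.cast_nonneg _
    linarith
  have hsum := sum_sat_ge I hm E hval
  set v : ℝ := 1 - s with hv
  have hv0 : 0 < v := by linarith
  have hv1 : v ≤ 1 / 16 := by linarith
  set ρ : ℝ := 1 - 8 * v with hρ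
  have hρ0 : 1 / 2 ≤ ρ := by linarith
  have hρ1 : ρ < 1 := by linarith
  have hρp : 0 < ρ := by linarith
  obtain ⟨J, hJe, hJ0, hJn, hJt⟩ := P325w.exists_J hd0 hd1 hρp hρ1 hn1
  have htr := P325w.game_trace I hd0.le hI hJ0
  rw [hcard] at htr
  have hexp : n ^ (Real.log ρ / Real.log d) ≤
      n ^ (12 * (Real.log (1 / s) / Real.log (1 / d))) := by
    apply Real.rpow_le_rpow_of_exponent_le hn1
    have hld : 0 < Real.log (1 / d) := Real.log_pos (by rw [lt_div_iff₀ hd0]; linarith)
    have e1 : Real.log d = -Real.log (1 / d) := by rw [one_div, Real.log_inv]; ring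
    have e2 : v ≤ Real.log (1 / s) := by
      have := Real.one_sub_inv_le_log_of_pos (x := 1 / s) (by positivity)
      rw [one_div, inv_inv] at this
      rw [one_div]
      linarith
    have e3 := neg_log_le hv0.le hv1
    rw [e1, div_neg, ← neg_div, ← mul_div_assoc, div_le_div_iff_of_pos_right hld]
    linarith
  have hdeg : 128 * 3 * (1 - 16 * (v / 2))⁻¹ ^ (2 * J) +
      8 * (J : ℝ) ^ 2 * (1 - 16 * (v / 2))⁻¹ ^ J + 5 ≤ r := by
    have e0 : 1 - 16 * (v / 2) = ρ := by rw [hρ]; ring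
    rw [e0]
    refine le_trans ?_ hr
    have hA := sq_mul_pow_le hρp hρ1 J
    have hX : 1 ≤ ρ⁻¹ ^ (2 * J) := one_le_pow₀ ((one_le_inv₀ hρp).2 hρ1.le)
    have hv2 : (1 - ρ) ^ 2 = 64 * v ^ 2 := by rw [hρ]; ring
    have h1 : 1 / ρ ^ 4 ≤ 16 := by
      rw [div_le_iff₀ (by positivity)]
      have : (1 / 2 : ℝ) ^ 4 ≤ ρ ^ 4 := pow_le_pow_left₀ (by norm_num) hρ0 4
      linarith
    have h2 : ρ⁻¹ ^ (2 * J) ≤ 16 * n ^ (12 * (Real.log (1 / s) / Real.log (1 / d))) := by
      refine hJt.trans (mul_le_mul h1 hexp (by positivity) (by norm_num))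
    have h3 : 389 + 5 / (64 * v ^ 2) ≤ 26 / 16 / v ^ 2 := by
      have h4 : v ^ 2 ≤ 1 / 256 := by nlinarith
      have h5 : 0 < v ^ 2 := by positivity
      have h6 : 5 / (64 * v ^ 2) = 5 / 64 / v ^ 2 := by rw [div_div]
      rw [h6, ← sub_nonneg, ← sub_sub, sub_right_comm, ← sub_div, sub_nonneg, le_div_iff₀ h5]
      linarith
    rw [hv2] at hA
    calc 128 * 3 * ρ⁻¹ ^ (2 * J) + 8 * (J : ℝ) ^ 2 * ρ⁻¹ ^ J + 5
        ≤ (389 + 5 / (64 * v ^ 2)) * ρ⁻¹ ^ (2 * J) := by nlinarith
      _ ≤ 26 / 16 / v ^ 2 * (16 * n ^ (12 * (Real.log (1 / s) / Real.log (1 / d)))) :=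
          mul_le_mul h3 h2 (by positivity) (by positivity)
      _ = 26 / v ^ 2 * n ^ (12 * (Real.log (1 / s) / Real.log (1 / d))) := by ring
  obtain ⟨z, hz⟩ := thr_avg (s := fun e => (Sum.inl (I.src e) : U ⊕ W))
    (t := fun e => Sum.inr (I.dst e)) I.perm hE hJe hJ0
    (Q := 3) (ε := v / 2) (by norm_num) (by positivity) (by linarith) hdeg (fun _ => 1)
    (fun _ => zero_le_one) (by linarith) (by
      simp only [one_mul, Finset.sum_const, Finset.card_univ, nsmul_eq_mul, mul_one,
        Finset.sum_sub_distrib]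
      have : s * Fintype.card ι = Fintype.card ι - 2 * (v / 2) * Fintype.card ι := by
        rw [hv]; ring
      linarith)
  rw [← P325v.satFrac_card I hm z] at hz
  simp only [Finset.sum_const, Finset.card_univ, nsmul_eq_mul, mul_one] at hz
  exact (le_of_mul_le_mul_right hz hm').trans (P325u.satFrac_le_value I _ _)

/-- Degree at least the number of vertices. -/
theorem sa_full {s : ℝ} (U W Ω ι : Type) [Fintype U] [Fintype W] [Fintype Ω] [Fintype ι]
    (I : P325x.Game U W Ω ι) (r : ℕ)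
    (E : ((U ⊕ W → Ω) → ℝ) →ₗ[ℝ] ℝ) (hE : IsLocalExpectation r E)
    (hr : (Fintype.card U : ℝ) + Fintype.card W ≤ r)
    (hval : s ≤ E (fun z => I.satFrac (fun u => z (Sum.inl u)) (fun v => z (Sum.inr v)))) :
    s ≤ I.value := by
  classical
  have h1 : (Finset.univ : Finset (U ⊕ W)).card ≤ r := by
    rw [Finset.card_univ, Fintype.card_sum]
    exact_mod_cast hr
  have h2 := hE.nonneg (fun z => I.value -
    I.satFrac (fun u => z (Sum.inl u)) (fun v => z (Sum.inr v))) Finset.univ h1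
    (by
      intro x y hxy
      have : x = y := by
        funext p
        exact hxy p (by simp)
      rw [this])
    (fun z => sub_nonneg.2 (P325u.satFrac_le_value I _ _))
  have h3 : (fun z : U ⊕ W → Ω => I.value -
      I.satFrac (fun u => z (Sum.inl u)) (fun v => z (Sum.inr v))) =
      I.value • (fun _ => (1 : ℝ)) - fun z =>
        I.satFrac (fun u => z (Sum.inl u)) (fun v => z (Sum.inr v)) := by
    funext z
    simp
  rw [h3, map_sub, map_smul, hE.one, smul_eq_mul, mul_one] at h2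
  linarith

/-- Sherali-Adams linear programs of degree `1000 n ^ (12 x) / (s ^ 4 (1 - s) ^ 2)`,
`x = log (1 / s) / log (1 / d)`, solve the gap problem `(s, d)` for unique games with second
eigenvalue at most `d`. -/
theorem sa_exact {d s : ℝ} (hd0 : 0 < d) (hd : d ≤ 1 / 2) (hds : d < s) (hs : s < 1)
    (U W Ω ι : Type) [Fintype U] [Fintype W] [Fintype Ω] [Fintype ι]
    (I : P325x.Game U W Ω ι) (hI : I.SecondEigenvalueLE d) (r : ℕ)
    (E : ((U ⊕ W → Ω) → ℝ) →ₗ[ℝ] ℝ) (hE : IsLocalExpectation r E)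
    (hr : 1000 / (s ^ 4 * (1 - s) ^ 2) *
      ((Fintype.card U : ℝ) + Fintype.card W) ^ (12 * (Real.log (1 / s) / Real.log (1 / d))) ≤ r)
    (hval : s ≤ E (fun z => I.satFrac (fun u => z (Sum.inl u)) (fun v => z (Sum.inr v)))) :
    d ≤ I.value := by
  classical
  have hs0 : 0 < s := hd0.trans hds
  have h1s : 0 < 1 - s := by linarith
  have hld : 0 < Real.log (1 / d) := Real.log_pos (by rw [lt_div_iff₀ hd0]; linarith)
  have hls : 0 < Real.log (1 / s) := Real.log_pos (by rw [lt_div_iff₀ hs0]; linarith)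
  have hp4 : s ^ 4 ≤ 1 := pow_le_one₀ hs0.le hs.le
  have hp2 : (1 - s) ^ 2 ≤ 1 := pow_le_one₀ h1s.le (by linarith)
  have hnp : 0 ≤ ((Fintype.card U : ℝ) + Fintype.card W) ^
      (12 * (Real.log (1 / s) / Real.log (1 / d))) := by positivity
  rcases le_or_gt (15 / 16) s with h16 | h16
  · refine hd.trans (sa_near hd0 (by linarith) h16 hs U W Ω ι I hI r E hE ?_ hval)
    refine le_trans (mul_le_mul_of_nonneg_right ?_ hnp) hr
    rw [div_le_div_iff₀ (by positivity) (by positivity)]
    have : s ^ 4 * (1 - s) ^ 2 ≤ 1 * (1 - s) ^ 2 := mul_le_mul_of_nonneg_right hp4 (by positivity)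
    nlinarith [sq_nonneg (1 - s)]
  · have hlog := log_two_div_le hs0 h16.le
    by_cases hc : (Fintype.card U : ℝ) + Fintype.card W < 1
    · -- no vertices
      have h0 : (Fintype.card U : ℝ) + Fintype.card W ≤ r := by
        have h1 : (Fintype.card U : ℝ) + Fintype.card W = 0 := by
          have h2 : ((Fintype.card U + Fintype.card W : ℕ) : ℝ) < 1 := by push_cast; exact hc
          have h3 : Fintype.card U + Fintype.card W = 0 := by
            have : Fintype.card U + Fintype.card W < 1 := by exact_mod_cast h2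
            omega
          exact_mod_cast h3
        rw [h1]
        exact Nat.cast_nonneg r
      exact hds.le.trans (sa_full U W Ω ι I r E hE h0 hval)
    push Not at hc
    rcases le_or_gt d (s / 2) with h2 | h2
    · have ht0 : 0 < s / 2 := by positivity
      have h3 := sa_expander (t := s / 2) hd0 (by linarith) ht0 (by linarith) U W Ω ι I hI r E hE
        (by
          refine le_trans ?_ hr
          refine mul_le_mul ?_ ?_ (by positivity) (by positivity)
          · have h1s2 : 0 < 1 - s / 2 := by linarith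
            rw [div_le_div_iff₀ (by positivity) (by positivity)]
            have h4 : (1 - s) ^ 2 ≤ 1 := hp2
            have h5 : (17 / 32 : ℝ) ^ 2 ≤ (1 - s / 2) ^ 2 :=
              pow_le_pow_left₀ (by norm_num) (by linarith) 2
            have h6 : 0 < s ^ 4 := by positivity
            calc 16 * (s ^ 4 * (1 - s) ^ 2) ≤ 16 * (s ^ 4 * 1) := by gcongr
              _ ≤ 1000 * ((s / 2) ^ 4 * (17 / 32) ^ 2) := by nlinarith
              _ ≤ 1000 * ((s / 2) ^ 4 * (1 - s / 2) ^ 2) := by gcongr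
          · apply Real.rpow_le_rpow_of_exponent_le hc
            have e1 : Real.log d = -Real.log (1 / d) := by rw [one_div, Real.log_inv]; ring
            have e2 : Real.log (s / 2) = -Real.log (2 / s) := by
              rw [← Real.log_inv, inv_div]
            rw [e1, e2, neg_div_neg_eq, ← mul_div_assoc, div_le_div_iff_of_pos_right hld]
            exact hlog) hval
      linarith
    · refine hds.le.trans (sa_full U W Ω ι I r E hE ?_ hval)
      refine le_trans ?_ hr
      have h3 : 1 ≤ 12 * (Real.log (1 / s) / Real.log (1 / d)) := by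
        rw [← mul_div_assoc, le_div_iff₀ hld, one_mul]
        refine le_trans ?_ hlog
        apply Real.log_le_log (by positivity)
        rw [div_le_div_iff₀ hd0 hs0]
        linarith
      have h4 : 1 ≤ 1000 / (s ^ 4 * (1 - s) ^ 2) := by
        rw [le_div_iff₀ (by positivity), one_mul]
        have : s ^ 4 * (1 - s) ^ 2 ≤ 1 * 1 := mul_le_mul hp4 hp2 (by positivity) zero_le_one
        linarith
      calc (Fintype.card U : ℝ) + Fintype.card W
          = ((Fintype.card U : ℝ) + Fintype.card W) ^ (1 : ℝ) := (Real.rpow_one _).symm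
        _ ≤ ((Fintype.card U : ℝ) + Fintype.card W) ^
            (12 * (Real.log (1 / s) / Real.log (1 / d))) :=
            Real.rpow_le_rpow_of_exponent_le hc h3
        _ ≤ _ := le_mul_of_one_le_left hnp h4

/-- The same for `d ≤ s`. -/
theorem sa_exact_le {d s : ℝ} (hd0 : 0 < d) (hd : d ≤ 1 / 2) (hds : d ≤ s) (hs : s < 1)
    (U W Ω ι : Type) [Fintype U] [Fintype W] [Fintype Ω] [Fintype ι]
    (I : P325x.Game U W Ω ι) (hI : I.SecondEigenvalueLE d) (r : ℕ)
    (E : ((U ⊕ W → Ω) → ℝ) →ₗ[ℝ] ℝ) (hE : IsLocalExpectation r E)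
    (hr : 1000 / (s ^ 4 * (1 - s) ^ 2) *
      ((Fintype.card U : ℝ) + Fintype.card W) ^ (12 * (Real.log (1 / s) / Real.log (1 / d))) ≤ r)
    (hval : s ≤ E (fun z => I.satFrac (fun u => z (Sum.inl u)) (fun v => z (Sum.inr v)))) :
    d ≤ I.value := by
  rcases hds.lt_or_eq with hds | rfl
  · exact sa_exact hd0 hd hds hs U W Ω ι I hI r E hE hr hval
  refine sa_full U W Ω ι I r E hE ?_ hval
  refine le_trans ?_ hr
  have hld : 0 < Real.log (1 / d) := Real.log_pos (by rw [lt_div_iff₀ hd0]; linarith)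
  rw [div_self hld.ne', mul_one]
  have h1s : 0 < 1 - d := by linarith
  have hp4 : d ^ 4 ≤ 1 := pow_le_one₀ hd0.le hs.le
  have hp2 : (1 - d) ^ 2 ≤ 1 := pow_le_one₀ h1s.le (by linarith)
  have h4 : 1 ≤ 1000 / (d ^ 4 * (1 - d) ^ 2) := by
    rw [le_div_iff₀ (by positivity), one_mul]
    have : d ^ 4 * (1 - d) ^ 2 ≤ 1 * 1 := mul_le_mul hp4 hp2 (by positivity) zero_le_one
    linarith
  by_cases hc : (Fintype.card U : ℝ) + Fintype.card W < 1
  · have h1 : (Fintype.card U : ℝ) + Fintype.card W = 0 := by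
      have h2 : ((Fintype.card U + Fintype.card W : ℕ) : ℝ) < 1 := by push_cast; exact hc
      have h3 : Fintype.card U + Fintype.card W = 0 := by
        have : Fintype.card U + Fintype.card W < 1 := by exact_mod_cast h2
        omega
      exact_mod_cast h3
    rw [h1]
    positivity
  · push Not at hc
    calc (Fintype.card U : ℝ) + Fintype.card W
        = ((Fintype.card U : ℝ) + Fintype.card W) ^ (1 : ℝ) := (Real.rpow_one _).symm
      _ ≤ ((Fintype.card U : ℝ) + Fintype.card W) ^ (12 : ℝ) :=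
          Real.rpow_le_rpow_of_exponent_le hc (by norm_num)
      _ ≤ _ := le_mul_of_one_le_left (by positivity) h4

end Pool.Agent.Lib.P325hx
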