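import Pool.Agent.Lib.P325h.Thr

/-!
# Threshold rounding, with the average of the violations

`P325h.sos_thr` with a bound for the average of the pseudo-violations in place of a bound for every
edge.
-/

set_option autoImplicit false

open Finset Matrix Pool.Agent.Lib.P325F Pool.Agent.Lib.P325v
open Pool.Agent.Lib.P325u (IsPart cov ind avVar cov_comm cov_sub_sub ind_mul_self)

namespace Pool.Agent.Lib.P325hx

open Pool.Agent.Lib.P325h

variable {V ι L : Type} [Fintype V] [DecidableEq V] [Fintype ι] [Fintype L] [DecidableEq L]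
  {s t : ι → V}

theorem thr_avg (perm : ι → Equiv.Perm L) {E : ((V → L) → ℝ) →ₗ[ℝ] ℝ} {r : ℕ}
    (hE : IsLocalExpectation r E) {J : ℕ} (hJ : Even J) (hJ0 : 0 < J) {Q ε : ℝ} (hQ : 1 ≤ Q)
    (hε : 0 ≤ ε) (hε1 : ε ≤ 1 / 32)
    (hr : 128 * Q * (1 - 16 * ε)⁻¹ ^ (2 * J) + 8 * (J : ℝ) ^ 2 * (1 - 16 * ε)⁻¹ ^ J + 5 ≤ r)
    (w : ι → ℝ) (hw : ∀ e, 0 ≤ w e) (htr : (MM s t w ^ (2 * J)).trace ≤ Q)
    (hsumf : ∑ e, w e * (1 - E (P325u.sat (s e) (t e) (perm e))) ≤ 2 * ε * ∑ e, w e) :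
    ∃ x : V → L, 1 / 2 * ∑ e, w e ≤ P325F.sat s t perm w x := by
  have hsat0 : ∀ x : V → L, 0 ≤ P325F.sat s t perm w x := by
    intro x
    unfold P325F.sat
    refine Finset.sum_nonneg fun e _ => ?_
    split_ifs
    · exact hw e
    · exact le_rfl
  obtain ⟨x0⟩ := nonempty_labelings hE
  have hm0 : 0 ≤ ∑ e, w e := Finset.sum_nonneg fun e _ => hw e
  rcases hm0.eq_or_lt with hm | hm
  · refine ⟨x0, ?_⟩
    rw [← hm, mul_zero]
    exact hsat0 x0
  -- the set of vertices is not empty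
  have hne : Nonempty L := by
    obtain ⟨e, _, he⟩ := Finset.exists_ne_zero_of_sum_ne_zero hm.ne'
    exact ⟨x0 (s e)⟩
  set m : ℝ := ∑ e, w e with hmdef
  set μ : V → ℝ := fun x => dg s t w x / (2 * m) with hμdef
  have hμ : ∀ x, 0 ≤ μ x := fun x => div_nonneg (dg_nonneg hw x) (by positivity)
  have hμ1 : ∑ x, μ x = 1 := by
    rw [hμdef, ← Finset.sum_div, sum_dg, ← hmdef]
    exact div_self (by positivity)
  have hsumV : ∀ F : V → ℝ, ∑ x, μ x * F x = (∑ e, w e * (F (s e) + F (t e))) / (2 * m) := by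
    intro F
    rw [← sum_dg_mul, Finset.sum_div]
    refine Finset.sum_congr rfl fun x _ => ?_
    simp only [hμdef]
    ring
  have hq : 0 < 1 - 16 * ε := by linarith
  have hq' : 0 < (1 - 16 * ε) ^ (2 * J) := pow_pos hq _
  have hJr : (0 : ℝ) < J := by exact_mod_cast hJ0
  have hq'' : 0 < (1 - 16 * ε)⁻¹ := inv_pos.2 hq
  set R : ℕ := ⌈128 * Q * (1 - 16 * ε)⁻¹ ^ (2 * J)⌉₊ with hR
  set N : ℕ := ⌈4 * (J : ℝ) ^ 2 * (1 - 16 * ε)⁻¹ ^ J⌉₊ + 1 with hN
  have hN1 : 4 * (J : ℝ) ^ 2 * (1 - 16 * ε)⁻¹ ^ J + 1 ≤ N := by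
    rw [hN]
    push_cast
    have := Nat.le_ceil (4 * (J : ℝ) ^ 2 * (1 - 16 * ε)⁻¹ ^ J)
    linarith
  have hN0 : 1 ≤ N := by rw [hN]; omega
  have hRr : R + (N + N) ≤ r := by
    have h1 : (R : ℝ) < 128 * Q * (1 - 16 * ε)⁻¹ ^ (2 * J) + 1 :=
      Nat.ceil_lt_add_one (by positivity)
    have h3 : (N : ℝ) < 4 * (J : ℝ) ^ 2 * (1 - 16 * ε)⁻¹ ^ J + 2 := by
      rw [hN]
      push_cast
      have := Nat.ceil_lt_add_one (a := 4 * (J : ℝ) ^ 2 * (1 - 16 * ε)⁻¹ ^ J) (by positivity)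
      linarith
    have h2 : ((R + (N + N) : ℕ) : ℝ) ≤ r := by
      push_cast
      linarith
    exact_mod_cast h2
  have hRδ : 1 - (R : ℝ) * ((1 - 16 * ε) ^ (2 * J) / (128 * Q)) ≤ 1 / 8 := by
    have h1 : 128 * Q * (1 - 16 * ε)⁻¹ ^ (2 * J) ≤ (R : ℝ) := Nat.le_ceil _
    have h2 : 1 ≤ (R : ℝ) * ((1 - 16 * ε) ^ (2 * J) / (128 * Q)) := by
      calc (1 : ℝ) = (128 * Q * (1 - 16 * ε)⁻¹ ^ (2 * J)) * ((1 - 16 * ε) ^ (2 * J) / (128 * Q)) := by
            rw [inv_pow]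
            field_simp
        _ ≤ _ := mul_le_mul_of_nonneg_right h1 (by positivity)
    linarith
  obtain ⟨κ, hκ, P, D, hP, hD, hav⟩ := loop hE μ hμ hμ1 (1 / 8)
    ((1 - 16 * ε) ^ (2 * J) / (128 * Q)) R hRδ (by omega) (by
    intro κ _ P D hP hD hM
    have hΦ0 : 0 < avVar E P μ := by linarith
    set Φ : ℝ := avVar E P μ with hΦ
    set C : V × L → V × L → ℝ := fun p q => cov E P (ind p.1 p.2) (ind q.1 q.2) with hC
    set c : ℝ := (∑ e, w e * ∑ a, C (s e, a) (t e, perm e a)) / m with hc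
    have hcΦ : Φ - 2 * ε ≤ c := by
      have h1 : Φ = (∑ e, w e * ((∑ a, cov E P (ind (s e) a) (ind (s e) a)) +
          ∑ a, cov E P (ind (t e) a) (ind (t e) a))) / (2 * m) := by
        rw [hΦ]
        unfold avVar
        exact hsumV _
      rw [hc, le_div_iff₀ hm]
      have h2 : Φ * m = ∑ e, w e * ((∑ a, cov E P (ind (s e) a) (ind (s e) a) +
          ∑ a, cov E P (ind (t e) a) (ind (t e) a)) / 2) := by
        rw [h1, div_mul_eq_mul_div, div_eq_iff (by positivity), Finset.sum_mul, Finset.sum_mul]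
        refine Finset.sum_congr rfl fun e _ => ?_
        ring
      have h3 : ∑ e, w e * ((∑ a, cov E P (ind (s e) a) (ind (s e) a) +
          ∑ a, cov E P (ind (t e) a) (ind (t e) a)) / 2) -
          ∑ e, w e * (1 - E (P325u.sat (s e) (t e) (perm e))) ≤
          ∑ e, w e * ∑ a, C (s e, a) (t e, perm e a) := by
        rw [← Finset.sum_sub_distrib]
        refine Finset.sum_le_sum fun e _ => ?_
        rw [← mul_sub]
        exact mul_le_mul_of_nonneg_left (ThrAux.edge hE hP (by omega) (s e) (t e) (perm e)) (hw e)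
      linarith
    have hratio : 1 - 16 * ε ≤ c / Φ := by
      rw [le_div_iff₀ hΦ0]
      nlinarith
    have hκ0 : ∀ q : V × L, 0 ≤ E (ind q.1 q.2) := fun q =>
      E_ind_nonneg hE (by omega) q.1 q.2
    have hcg := corr_gen (s := s) (t := t) (w := w) perm hw hm (C := C)
      (fun p q => cov_comm _ _) (cov_locPSD hE hP (M := N + N) (by omega))
      (κ := fun q => E (ind q.1 q.2)) hκ0 (fun x => sum_E_ind hE x)
      (fun p q h => cov_null hE hP (by omega) p.1 q.1 p.2 q.2 h) hJ hJ0 htr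
      (Φ := Φ) (c := c)
      (K := ∑ x, ∑ a, ∑ y, ∑ b, dg s t w x / (2 * ∑ e, w e) *
        (dg s t w y / (2 * ∑ e, w e)) * (C (x, a) (y, b) ^ 2 / E (ind y b)))
      (ρ := 1 - 16 * ε) rfl hΦ0 rfl rfl hq (by linarith) (by
        rw [← le_div_iff₀ hΦ0]
        exact hratio) hN1
    have hlow : (1 / 8 * (1 - 16 * ε) ^ J) ^ 2 ≤ (Φ * (1 - 16 * ε) ^ J) ^ 2 := by
      refine pow_le_pow_left₀ (by positivity) ?_ 2
      exact mul_le_mul_of_nonneg_right hM.le (by positivity)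
    have h5 : (1 / 8 * (1 - 16 * ε) ^ J) ^ 2 = (1 - 16 * ε) ^ (2 * J) / 64 := by
      rw [mul_pow, ← pow_mul, mul_comm J 2]
      ring
    have h6 := hlow.trans hcg
    rw [h5] at h6
    have hQ0 : 0 < Q := by linarith
    show (1 - 16 * ε) ^ (2 * J) / (128 * Q) ≤ ∑ x, ∑ a, ∑ y, ∑ b, dg s t w x / (2 * ∑ e, w e) *
        (dg s t w y / (2 * ∑ e, w e)) * (C (x, a) (y, b) ^ 2 / E (ind y b))
    rw [div_le_iff₀ (by positivity)]
    linarith)
  obtain ⟨ℓ, q, er, hq01, her, -, hviol, hobj⟩ := round_part hE hP (by omega) s t perm w hw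
    (fun x => dg s t w x) (fun x => dg_nonneg hw x)
  refine ⟨ℓ, ?_⟩
  have hVsum : ∑ x, dg s t w x * ∑ a, cov E P (ind x a) (ind x a) ≤ m / 4 := by
    have h1 : ∑ x, dg s t w x * ∑ a, cov E P (ind x a) (ind x a) = 2 * m * avVar E P μ := by
      unfold avVar
      rw [Finset.mul_sum]
      refine Finset.sum_congr rfl fun x _ => ?_
      simp only [hμdef]
      field_simp
    rw [h1]
    nlinarith
  have hlast : ∑ e, w e * (1 - er e - (1 - q (s e)) - (1 - q (t e))) ≤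
      P325F.sat s t perm w ℓ := by
    unfold P325F.sat
    refine Finset.sum_le_sum fun e _ => ?_
    have h1 := hq01 (s e)
    have h2 := hq01 (t e)
    have h3 := her e
    split_ifs with hgood
    · exact mul_le_of_le_one_right (hw e) (by linarith)
    · exact mul_nonpos_of_nonneg_of_nonpos (hw e) (by
        have := hviol e hgood
        linarith)
  have hsum2 := sum_dg_mul (s := s) (t := t) (w := w) (fun x => 1 - q x)
  have hexp : ∑ e, w e * (1 - er e - (1 - q (s e)) - (1 - q (t e))) =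
      m - ∑ e, w e * er e - ∑ x, dg s t w x * (1 - q x) := by
    rw [hsum2, hmdef, ← Finset.sum_sub_distrib, ← Finset.sum_sub_distrib]
    refine Finset.sum_congr rfl fun e _ => ?_
    ring
  rw [hexp] at hlast
  nlinarith

end Pool.Agent.Lib.P325hx
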